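import Mathlib

set_option autoImplicit false

/-!
# Chains of convex blocks
-/

namespace Pool.Agent.H57.OC

/-- The chords `ab` (with `a < b`) and `cd` (with `c < d`) of the convex polygon with corners
`0, 1, …, n-1` cross. -/
def Crosses {n : ℕ} (a b c d : Fin n) : Prop :=
  (a < c ∧ c < b ∧ b < d) ∨ (c < a ∧ a < d ∧ d < b)

/-- The number of edges of `G` which cross the chord `ab`, when the vertices of `G` are the corners
`0, 1, …, n-1` of a convex polygon (in this order) and the edges are straight. -/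
noncomputable def crossings {n : ℕ} (G : SimpleGraph (Fin n)) (a b : Fin n) : ℕ :=
  {p : Fin n × Fin n | p.1 < p.2 ∧ G.Adj p.1 p.2 ∧ Crosses a b p.1 p.2}.ncard

/-- In the straight drawing on the convex polygon `0, 1, …, n-1` every edge of `G` has at most `k`
crossings. -/
def ConvexKPlanar (k : ℕ) {n : ℕ} (G : SimpleGraph (Fin n)) : Prop :=
  ∀ a b : Fin n, a < b → G.Adj a b → crossings G a b ≤ k

/-- interleaving of pairs -/
def X (p q : ℕ × ℕ) : Prop :=
  (p.1 < q.1 ∧ q.1 < p.2 ∧ p.2 < q.2) ∨ (q.1 < p.1 ∧ p.1 < q.2 ∧ q.2 < p.2)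

instance (p q : ℕ × ℕ) : Decidable (X p q) := by unfold X; infer_instance

/-- the corner of block `t` with local number `i` -/
def g (w t i : ℕ) : ℕ := if i = 0 then 0 else w * t + i

/-- the finite checks for a block with `w + 2` corners -/
structure GoodBlock (w : ℕ) (L : List (ℕ × ℕ)) (k : ℕ) : Prop where
  pos : 1 ≤ w
  ok : ∀ p ∈ L, p.1 < p.2 ∧ p.2 ≤ w + 1 ∧ ¬ (p.1 = 0 ∧ p.2 = w + 1)
  nodup : L.Nodup
  cnt : ∀ p ∈ L, (L.filter (fun q => X p q)).length ≤ k

variable {w : ℕ} {L : List (ℕ × ℕ)} {k : ℕ}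

theorem g_lt {t i j : ℕ} (h : i < j) : g w t i < g w t j := by
  unfold g
  split_ifs <;> omega

theorem g_mono {t i j : ℕ} : g w t i < g w t j ↔ i < j := by
  constructor
  · intro h
    by_contra hc
    rcases Nat.lt_or_ge j i with h1 | h1
    · exact absurd (g_lt (w := w) (t := t) h1) (by omega)
    · have : i = j := by omega
      rw [this] at h
      omega
  · exact g_lt

theorem far {t t' : ℕ} (h : t < t') : w * t + w ≤ w * t' := by
  have := Nat.mul_le_mul_left w (Nat.succ_le_of_lt h)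
  rw [Nat.succ_eq_add_one, Nat.mul_add, Nat.mul_one] at this
  exact this

theorem cross_block (hL : GoodBlock w L k) {p q : ℕ × ℕ} (hp : p ∈ L) (hq : q ∈ L) {t t' : ℕ}
    (h : X (g w t p.1, g w t p.2) (g w t' q.1, g w t' q.2)) : t = t' ∧ X p q := by
  obtain ⟨p1, p2, p3⟩ := hL.ok p hp
  obtain ⟨q1, q2, q3⟩ := hL.ok q hq
  have ht : t = t' := by
    rcases lt_trichotomy t t' with ht | ht | ht
    · exfalso
      have hf := far (w := w) ht
      unfold X g at h
      simp only at h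
      split_ifs at h <;> omega
    · exact ht
    · exfalso
      have hf := far (w := w) ht
      unfold X g at h
      simp only at h
      split_ifs at h <;> omega
  subst ht
  refine ⟨rfl, ?_⟩
  unfold X at h ⊢
  simp only [g_mono] at h
  exact h

theorem g_inj (hL : GoodBlock w L k) {p q : ℕ × ℕ} (hp : p ∈ L) (hq : q ∈ L) {t t' : ℕ}
    (h1 : g w t p.1 = g w t' q.1) (h2 : g w t p.2 = g w t' q.2) : t = t' ∧ p = q := by
  obtain ⟨p1, p2, p3⟩ := hL.ok p hp
  obtain ⟨q1, q2, q3⟩ := hL.ok q hq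
  have ht : t = t' := by
    rcases lt_trichotomy t t' with ht | ht | ht
    · exfalso
      have hf := far (w := w) ht
      unfold g at h1 h2
      split_ifs at h1 h2 <;> omega
    · exact ht
    · exfalso
      have hf := far (w := w) ht
      unfold g at h1 h2
      split_ifs at h1 h2 <;> omega
  subst ht
  refine ⟨rfl, ?_⟩
  unfold g at h1 h2
  ext
  · split_ifs at h1 h2 <;> omega
  · split_ifs at h1 h2 <;> omega

/-- The chain of blocks on `n` corners. -/
def chain (n : ℕ) (hL : GoodBlock w L k) : SimpleGraph (Fin n) where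
  Adj x y := ∃ t, w * t + w + 1 < n ∧ ∃ p ∈ L, (x.val = g w t p.1 ∧ y.val = g w t p.2) ∨
    (y.val = g w t p.1 ∧ x.val = g w t p.2)
  symm := ⟨by
    rintro x y ⟨t, ht, p, hp, h⟩
    exact ⟨t, ht, p, hp, h.symm⟩⟩
  loopless := ⟨by
    rintro x ⟨t, ht, p, hp, h⟩
    have := g_lt (w := w) (t := t) (hL.ok p hp).1
    rcases h with ⟨h1, h2⟩ | ⟨h1, h2⟩ <;> omega⟩

theorem chain_lt {n : ℕ} {hL : GoodBlock w L k} {x y : Fin n} (h : (chain n hL).Adj x y)
    (hxy : x < y) : ∃ t, w * t + w + 1 < n ∧ ∃ p ∈ L, x.val = g w t p.1 ∧ y.val = g w t p.2 := by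
  obtain ⟨t, ht, p, hp, h⟩ := h
  have := g_lt (w := w) (t := t) (hL.ok p hp).1
  have hxy' : x.val < y.val := hxy
  rcases h with h | ⟨h1, h2⟩
  · exact ⟨t, ht, p, hp, h⟩
  · omega

theorem chain_planar (n : ℕ) (hL : GoodBlock w L k) : ConvexKPlanar k (chain n hL) := by
  classical
  intro a b hab hadj
  obtain ⟨t, ht, p, hp, h1, h2⟩ := chain_lt hadj hab
  unfold crossings
  set S := {q : Fin n × Fin n | q.1 < q.2 ∧ (chain n hL).Adj q.1 q.2 ∧ Crosses a b q.1 q.2}
    with hS
  have hinj : Function.Injective (fun q : Fin n × Fin n => (q.1.val, q.2.val)) := by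
    rintro ⟨x, y⟩ ⟨x', y'⟩ h
    simp only [Prod.mk.injEq] at h
    exact Prod.ext (Fin.ext h.1) (Fin.ext h.2)
  rw [← Set.ncard_image_of_injective S hinj]
  have hsub : (fun q : Fin n × Fin n => (q.1.val, q.2.val)) '' S ⊆
      ((((L.filter (fun q => X p q)).toFinset.image (fun q => (g w t q.1, g w t q.2))) :
        Finset (ℕ × ℕ)) : Set (ℕ × ℕ)) := by
    rintro _ ⟨⟨c, d⟩, ⟨hcd, hadj', hcr⟩, rfl⟩
    obtain ⟨t', ht', q, hq, h3, h4⟩ := chain_lt hadj' hcd
    have hX : X (g w t p.1, g w t p.2) (g w t' q.1, g w t' q.2) := by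
      unfold X
      unfold Crosses at hcr
      simp only [Fin.lt_def] at hcr
      rw [← h1, ← h2, ← h3, ← h4]
      exact hcr
    obtain ⟨rfl, hpq⟩ := cross_block hL hp hq hX
    rw [Finset.mem_coe, Finset.mem_image]
    refine ⟨q, ?_, ?_⟩
    · rw [List.mem_toFinset, List.mem_filter]
      exact ⟨hq, by simpa using hpq⟩
    · simp only at h3 h4 ⊢
      rw [h3, h4]
  refine (Set.ncard_le_ncard hsub (Finset.finite_toSet _)).trans ?_
  rw [Set.ncard_coe_finset]
  exact (Finset.card_image_le).trans ((List.toFinset_card_le _).trans (hL.cnt p hp))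

theorem g_bound (hL : GoodBlock w L k) {p : ℕ × ℕ} (hp : p ∈ L) {n t : ℕ} (ht : w * t + w + 1 < n) :
    g w t p.1 < n ∧ g w t p.2 < n := by
  obtain ⟨p1, p2, p3⟩ := hL.ok p hp
  unfold g
  constructor <;> split_ifs <;> omega

theorem chain_edges (n : ℕ) (hL : GoodBlock w L k) :
    L.length * ((n - 2) / w) ≤ (chain n hL).edgeSet.ncard := by
  classical
  have hw := hL.pos
  have hin : ∀ t : Fin ((n - 2) / w), w * t.val + w + 1 < n := by
    intro t
    have h1 : t.val + 1 ≤ (n - 2) / w := t.2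
    have h2 : w * (t.val + 1) ≤ n - 2 := by
      rw [mul_comm]
      exact (Nat.le_div_iff_mul_le (by omega)).mp h1
    have h3 : 1 ≤ w * (t.val + 1) := Nat.mul_pos hw (by omega)
    rw [Nat.mul_add, Nat.mul_one] at h2 h3
    omega
  have hmem : ∀ i : Fin L.length, L.get i ∈ L := fun i => List.get_mem L i
  let f : Fin L.length × Fin ((n - 2) / w) → (chain n hL).edgeSet := fun q =>
    ⟨s(⟨g w q.2 (L.get q.1).1, (g_bound hL (hmem q.1) (hin q.2)).1⟩,
      ⟨g w q.2 (L.get q.1).2, (g_bound hL (hmem q.1) (hin q.2)).2⟩), by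
      show (chain n hL).Adj _ _
      exact ⟨q.2, hin q.2, L.get q.1, hmem q.1, Or.inl ⟨rfl, rfl⟩⟩⟩
  have hf : Function.Injective f := by
    rintro ⟨i, t⟩ ⟨i', t'⟩ h
    have h' := congrArg Subtype.val h
    simp only [f, Sym2.eq_iff, Fin.mk.injEq] at h'
    have l1 := g_lt (w := w) (t := t) (hL.ok _ (hmem i)).1
    have l2 := g_lt (w := w) (t := t') (hL.ok _ (hmem i')).1
    rcases h' with ⟨h1, h2⟩ | ⟨h1, h2⟩
    · obtain ⟨e1, e2⟩ := g_inj hL (hmem i) (hmem i') h1 h2
      have e3 : i = i' := (List.nodup_iff_injective_get.mp hL.nodup) e2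
      rw [e3, Fin.ext e1]
    · omega
  have hcard := Nat.card_le_card_of_injective f hf
  rw [Nat.card_coe_set_eq, Nat.card_prod, Nat.card_fin, Nat.card_fin] at hcard
  exact hcard

/-- The lower bound from one good block. -/
theorem family (hL : GoodBlock w L k) (n : ℕ) : ∃ G : SimpleGraph (Fin n), ConvexKPlanar k G ∧
    (L.length : ℝ) / w * n - 3 * L.length ≤ (G.edgeSet.ncard : ℝ) := by
  refine ⟨chain n hL, chain_planar n hL, ?_⟩
  have h := chain_edges n hL
  have hR : ((L.length * ((n - 2) / w) : ℕ) : ℝ) ≤ ((chain n hL).edgeSet.ncard : ℝ) := by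
    exact_mod_cast h
  refine le_trans ?_ hR
  have hw := hL.pos
  have hw' : (1 : ℝ) ≤ w := by exact_mod_cast hw
  have h1 : n ≤ w * ((n - 2) / w + 1) + 2 := by
    have := Nat.lt_mul_div_succ (n - 2) (show 0 < w by omega)
    have h2 : n - 2 < w * ((n - 2) / w + 1) := by simpa using this
    omega
  have h1' : (n : ℝ) ≤ w * (((n - 2) / w : ℕ) + 1) + 2 := by exact_mod_cast h1
  have h2 : (n : ℝ) / w ≤ ((n - 2) / w : ℕ) + 3 := by
    rw [div_le_iff₀ (by linarith)]
    nlinarith
  have hL0 : (0 : ℝ) ≤ L.length := Nat.cast_nonneg _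
  have h3 : (L.length : ℝ) / w * n = L.length * ((n : ℝ) / w) := by ring
  rw [h3]
  push_cast
  nlinarith [mul_le_mul_of_nonneg_left h2 hL0]

end Pool.Agent.H57.OC
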