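import Pool.Agent.H57.OC.Block

set_option autoImplicit false

/-!
# The blocks
-/

namespace Pool.Agent.H57.OC

/-- the 37 chords of the block for `k = 5` -/
def L5 : List (ℕ × ℕ) :=
  [(0, 1), (0, 2), (0, 3), (0, 10), (1, 2), (1, 3), (1, 10), (1, 11), (2, 3), (2, 4), (2, 10),
   (2, 11), (3, 4), (3, 9), (3, 10), (3, 11), (4, 5), (4, 6), (4, 7), (4, 8), (4, 9), (4, 10),
   (4, 11), (5, 6), (5, 7), (5, 8), (5, 9), (5, 10), (6, 7), (6, 8), (6, 9), (7, 8), (7, 9),
   (8, 9), (8, 10), (9, 10), (10, 11)]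

theorem good5 : GoodBlock 10 L5 5 where
  pos := by decide +kernel
  ok := by decide +kernel
  nodup := by decide +kernel
  cnt := by decide +kernel

/-- the 46 chords of the block for `k = 7` -/
def L7 : List (ℕ × ℕ) :=
  [(0, 1), (0, 2), (0, 3), (0, 10), (0, 11), (1, 2), (1, 3), (1, 10), (1, 11), (1, 12), (2, 3),
   (2, 9), (2, 10), (2, 11), (2, 12), (3, 4), (3, 5), (3, 6), (3, 7), (3, 8), (3, 9), (3, 10),
   (3, 11), (3, 12), (4, 5), (4, 6), (4, 7), (4, 8), (4, 9), (4, 10), (5, 6), (5, 7), (5, 8),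
   (5, 9), (6, 7), (6, 8), (6, 9), (7, 8), (7, 9), (8, 9), (8, 10), (9, 10), (9, 11), (10, 11),
   (10, 12), (11, 12)]

theorem good7 : GoodBlock 11 L7 7 where
  pos := by decide +kernel
  ok := by decide +kernel
  nodup := by decide +kernel
  cnt := by decide +kernel

/-- the 26 chords of the block for `k = 8` -/
def L8 : List (ℕ × ℕ) :=
  [(0, 1), (0, 2), (0, 3), (0, 4), (0, 5), (0, 6), (1, 2), (1, 3), (1, 4), (1, 6), (1, 7),
   (2, 3), (2, 4), (2, 5), (2, 6), (2, 7), (3, 4), (3, 5), (3, 6), (3, 7), (4, 5), (4, 6),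
   (4, 7), (5, 6), (5, 7), (6, 7)]

theorem good8 : GoodBlock 6 L8 8 where
  pos := by decide +kernel
  ok := by decide +kernel
  nodup := by decide +kernel
  cnt := by decide +kernel

/-- the 70 chords of the block for `k = 10` -/
def L10 : List (ℕ × ℕ) :=
  [(0, 1), (0, 2), (0, 10), (0, 11), (0, 13), (0, 14), (0, 15), (1, 2), (1, 3), (1, 9), (1, 10),
   (1, 11), (1, 12), (1, 13), (1, 14), (1, 15), (1, 16), (2, 3), (2, 4), (2, 5), (2, 6), (2, 7),
   (2, 8), (2, 9), (2, 10), (2, 11), (3, 4), (3, 5), (3, 6), (3, 7), (3, 9), (3, 10), (4, 5),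
   (4, 6), (4, 7), (4, 10), (5, 6), (5, 7), (5, 8), (5, 9), (5, 10), (6, 7), (6, 8), (6, 9),
   (6, 10), (7, 8), (7, 9), (7, 10), (8, 9), (8, 10), (9, 10), (10, 11), (10, 12), (10, 13),
   (10, 14), (10, 15), (10, 16), (11, 12), (11, 13), (11, 14), (11, 15), (12, 13), (12, 14),
   (12, 15), (13, 14), (13, 15), (13, 16), (14, 15), (14, 16), (15, 16)]

theorem good10 : GoodBlock 15 L10 10 where
  pos := by decide +kernel
  ok := by decide +kernel
  nodup := by decide +kernel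
  cnt := by decide +kernel

/-- the 77 chords of the block for `k = 11` -/
def L11 : List (ℕ × ℕ) :=
  [(0, 1), (0, 2), (0, 3), (0, 4), (0, 5), (0, 6), (0, 7), (0, 8), (0, 9), (0, 10), (0, 16),
   (1, 2), (1, 3), (1, 4), (1, 5), (1, 8), (1, 9), (1, 17), (2, 3), (2, 4), (2, 5), (2, 7),
   (2, 8), (3, 4), (3, 5), (3, 6), (3, 7), (3, 8), (4, 5), (4, 6), (4, 7), (4, 8), (5, 6),
   (5, 7), (5, 8), (6, 7), (6, 8), (7, 8), (7, 9), (7, 17), (8, 9), (8, 10), (8, 16), (8, 17),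
   (9, 10), (9, 11), (9, 12), (9, 13), (9, 14), (9, 15), (9, 16), (9, 17), (10, 11), (10, 12),
   (10, 13), (10, 14), (10, 15), (10, 17), (11, 12), (11, 13), (11, 14), (11, 17), (12, 13),
   (12, 14), (12, 15), (12, 16), (12, 17), (13, 14), (13, 15), (13, 16), (13, 17), (14, 15),
   (14, 16), (14, 17), (15, 16), (15, 17), (16, 17)]

theorem good11 : GoodBlock 16 L11 11 where
  pos := by decide +kernel
  ok := by decide +kernel
  nodup := by decide +kernel
  cnt := by decide +kernel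

/-- the 72 chords of the block for `k = 13` -/
def L13 : List (ℕ × ℕ) :=
  [(0, 1), (0, 2), (0, 3), (0, 11), (0, 12), (0, 13), (0, 14), (1, 2), (1, 3), (1, 11), (1, 12),
   (1, 13), (1, 14), (1, 15), (2, 3), (2, 4), (2, 11), (2, 12), (2, 13), (2, 14), (2, 15),
   (3, 4), (3, 5), (3, 6), (3, 7), (3, 8), (3, 9), (3, 10), (3, 11), (3, 12), (3, 13), (3, 14),
   (3, 15), (4, 5), (4, 6), (4, 7), (4, 8), (4, 9), (4, 10), (4, 11), (5, 6), (5, 7), (5, 8),
   (5, 9), (5, 10), (5, 11), (6, 7), (6, 8), (6, 9), (6, 10), (6, 11), (7, 8), (7, 9), (7, 10),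
   (7, 11), (8, 9), (8, 10), (8, 11), (9, 10), (9, 11), (10, 11), (10, 12), (11, 12), (11, 13),
   (11, 14), (11, 15), (12, 13), (12, 14), (12, 15), (13, 14), (13, 15), (14, 15)]

theorem good13 : GoodBlock 14 L13 13 where
  pos := by decide +kernel
  ok := by decide +kernel
  nodup := by decide +kernel
  cnt := by decide +kernel

/-- the 74 chords of the block for `k = 14` -/
def L14 : List (ℕ × ℕ) :=
  [(0, 1), (0, 2), (0, 3), (0, 4), (0, 5), (0, 6), (0, 7), (0, 8), (0, 9), (0, 10), (0, 11),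
   (0, 12), (0, 13), (0, 14), (1, 2), (1, 3), (1, 4), (1, 5), (1, 6), (1, 7), (1, 8), (1, 9),
   (1, 15), (2, 3), (2, 4), (2, 5), (2, 6), (2, 7), (2, 8), (3, 4), (3, 5), (3, 6), (3, 7),
   (3, 8), (4, 5), (4, 6), (4, 7), (4, 8), (5, 6), (5, 7), (5, 8), (6, 7), (6, 8), (7, 8),
   (7, 9), (7, 15), (8, 9), (8, 10), (8, 11), (8, 12), (8, 13), (8, 14), (8, 15), (9, 10),
   (9, 11), (9, 12), (9, 13), (9, 14), (9, 15), (10, 11), (10, 12), (10, 13), (10, 14), (10, 15),
   (11, 12), (11, 13), (11, 14), (11, 15), (12, 13), (12, 14), (12, 15), (13, 14), (13, 15),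
   (14, 15)]

theorem good14 : GoodBlock 14 L14 14 where
  pos := by decide +kernel
  ok := by decide +kernel
  nodup := by decide +kernel
  cnt := by decide +kernel

/-- the 43 chords of the block for `k = 15` -/
def L15 : List (ℕ × ℕ) :=
  [(0, 1), (0, 2), (0, 3), (0, 4), (0, 6), (0, 7), (0, 8), (1, 2), (1, 3), (1, 4), (1, 5),
   (1, 6), (1, 7), (1, 8), (1, 9), (2, 3), (2, 4), (2, 5), (2, 6), (2, 7), (2, 8), (2, 9),
   (3, 4), (3, 5), (3, 6), (3, 7), (3, 8), (3, 9), (4, 5), (4, 6), (4, 7), (4, 8), (4, 9),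
   (5, 6), (5, 7), (5, 8), (5, 9), (6, 7), (6, 8), (6, 9), (7, 8), (7, 9), (8, 9)]

theorem good15 : GoodBlock 8 L15 15 where
  pos := by decide +kernel
  ok := by decide +kernel
  nodup := by decide +kernel
  cnt := by decide +kernel

end Pool.Agent.H57.OC
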