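import Pool.Agent.H57.OC.Block

set_option autoImplicit false

/-!
# Complete blocks
-/

namespace Pool.Agent.H57.OC

open Finset

/-- increasing pairs below `s` -/
def T (s : ℕ) : Finset (ℕ × ℕ) := (range s ×ˢ range s).filter (fun p => p.1 < p.2)

theorem mem_T {s : ℕ} {p : ℕ × ℕ} : p ∈ T s ↔ p.1 < p.2 ∧ p.2 < s := by
  unfold T
  rw [mem_filter, mem_product, mem_range, mem_range]
  constructor
  · rintro ⟨⟨h1, h2⟩, h3⟩
    exact ⟨h3, h2⟩
  · rintro ⟨h1, h2⟩
    exact ⟨⟨by omega, h2⟩, h1⟩

theorem T_succ (s : ℕ) : T (s + 1) = T s ∪ (range s).image (fun i => (i, s)) := by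
  ext ⟨a, b⟩
  rw [mem_union, mem_T, mem_T, mem_image]
  constructor
  · rintro ⟨h1, h2⟩
    simp only at h1 h2
    rcases Nat.lt_or_ge b s with h | h
    · exact Or.inl ⟨h1, h⟩
    · right
      have hb : b = s := by omega
      subst hb
      exact ⟨a, mem_range.mpr h1, rfl⟩
  · rintro (⟨h1, h2⟩ | ⟨i, hi, h⟩)
    · simp only at h1 h2 ⊢
      omega
    · rw [mem_range] at hi
      simp only [Prod.mk.injEq] at h ⊢
      omega

theorem T_card (s : ℕ) : 2 * (T s).card + s = s * s := by
  induction s with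
  | zero => simp [T]
  | succ s ih =>
    rw [T_succ, card_union_of_disjoint, card_image_of_injective, card_range]
    · nlinarith
    · intro i j h
      simp only [Prod.mk.injEq] at h
      exact h.1
    · rw [disjoint_left]
      rintro ⟨a, b⟩ h1 h2
      rw [mem_T] at h1
      rw [mem_image] at h2
      obtain ⟨i, hi, h⟩ := h2
      simp only [Prod.mk.injEq] at h h1
      omega

/-- all chords of the block with `w + 2` corners except the chord `(0, w + 1)` -/
noncomputable def fullL (w : ℕ) : List (ℕ × ℕ) := ((T (w + 2)).erase (0, w + 1)).toList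

theorem fullL_length (w : ℕ) : 2 * (fullL w).length = w * (w + 3) := by
  unfold fullL
  rw [length_toList, card_erase_of_mem]
  · have h := T_card (w + 2)
    have h1 : 1 ≤ (T (w + 2)).card := by
      rw [Nat.one_le_iff_ne_zero, card_ne_zero]
      exact ⟨(0, 1), mem_T.mpr ⟨by norm_num, by simp only; omega⟩⟩
    have h2 : 2 * ((T (w + 2)).card - 1) + 2 = 2 * (T (w + 2)).card := by omega
    nlinarith
  · exact mem_T.mpr ⟨by simp only; omega, by simp only; omega⟩

theorem mem_fullL {w : ℕ} {p : ℕ × ℕ} (hp : p ∈ fullL w) :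
    p.1 < p.2 ∧ p.2 ≤ w + 1 ∧ ¬ (p.1 = 0 ∧ p.2 = w + 1) := by
  unfold fullL at hp
  rw [mem_toList, mem_erase, mem_T] at hp
  obtain ⟨h1, h2, h3⟩ := hp
  refine ⟨h2, by omega, ?_⟩
  rintro ⟨h4, h5⟩
  exact h1 (Prod.ext h4 h5)

theorem full_good (w : ℕ) (hw : 1 ≤ w) : GoodBlock w (fullL w) (w * w / 4) where
  pos := hw
  ok := fun p hp => mem_fullL hp
  nodup := nodup_toList _
  cnt := by
    intro p hp
    obtain ⟨p1, p2, p3⟩ := mem_fullL hp
    have hnd : ((fullL w).filter (fun q => X p q)).Nodup := (nodup_toList _).filter _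
    rw [← List.toFinset_card_of_nodup hnd]
    have hsub : ((fullL w).filter (fun q => X p q)).toFinset ⊆
        ((Ioo p.1 p.2) ×ˢ (range (w + 2) \ Icc p.1 p.2)).image
          (fun x => (min x.1 x.2, max x.1 x.2)) := by
      intro q hq
      rw [List.mem_toFinset, List.mem_filter] at hq
      obtain ⟨q1, q2, q3⟩ := mem_fullL hq.1
      have hX : X p q := by simpa using hq.2
      rw [mem_image]
      unfold X at hX
      rcases hX with ⟨h1, h2, h3⟩ | ⟨h1, h2, h3⟩
      · refine ⟨(q.1, q.2), ?_, ?_⟩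
        · rw [mem_product, mem_Ioo, mem_sdiff, mem_range, mem_Icc]
          simp only
          omega
        · ext
          · simp only; omega
          · simp only; omega
      · refine ⟨(q.2, q.1), ?_, ?_⟩
        · rw [mem_product, mem_Ioo, mem_sdiff, mem_range, mem_Icc]
          simp only
          omega
        · ext
          · simp only; omega
          · simp only; omega
    refine (card_le_card hsub).trans (card_image_le.trans ?_)
    rw [card_product, Nat.card_Ioo, card_sdiff_of_subset, card_range, Nat.card_Icc]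
    · rw [Nat.le_div_iff_mul_le (by norm_num)]
      obtain ⟨a, ha⟩ : ∃ a, p.2 = p.1 + 1 + a := ⟨p.2 - p.1 - 1, by omega⟩
      have e1 : p.2 - p.1 - 1 = a := by omega
      obtain ⟨b, hb⟩ : ∃ b, w = a + b := ⟨w - a, by omega⟩
      have e2 : w + 2 - (p.2 + 1 - p.1) = b := by omega
      rw [e1, e2, hb]
      have h : (4 : ℤ) * a * b ≤ (a + b) * (a + b) := by nlinarith [sq_nonneg ((a : ℤ) - b)]
      have h' : 4 * a * b ≤ (a + b) * (a + b) := by exact_mod_cast h
      linarith
    · intro x hx
      rw [mem_Icc] at hx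
      rw [mem_range]
      omega

theorem full_family (w : ℕ) (hw : 1 ≤ w) (n : ℕ) : ∃ G : SimpleGraph (Fin n),
    ConvexKPlanar (w * w / 4) G ∧
    ((w : ℝ) + 3) / 2 * n - 3 * (w * (w + 3)) / 2 ≤ (G.edgeSet.ncard : ℝ) := by
  obtain ⟨G, h1, h2⟩ := family (full_good w hw) n
  refine ⟨G, h1, le_trans (le_of_eq ?_) h2⟩
  have h : 2 * ((fullL w).length : ℝ) = w * (w + 3) := by exact_mod_cast fullL_length w
  have h' : ((fullL w).length : ℝ) = w * (w + 3) / 2 := by linarith
  have hw0 : (w : ℝ) ≠ 0 := by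
    have : (1 : ℝ) ≤ w := by exact_mod_cast hw
    linarith
  rw [h']
  field_simp

end Pool.Agent.H57.OC
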