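import Pool.Agent.H57.OC.Block

set_option autoImplicit false

/-!
# Adding the sides of the polygon
-/

namespace Pool.Agent.H57.OC

/-- All sides of the polygon `0, 1, …, n-1` are edges of `G`. -/
def HasSides {n : ℕ} (G : SimpleGraph (Fin n)) : Prop :=
  ∀ a b : Fin n, a < b → (a.val + 1 = b.val ∨ (a.val = 0 ∧ b.val + 1 = n)) → G.Adj a b

/-- `xy` is a side, in increasing order -/
def side {n : ℕ} (x y : Fin n) : Prop := x.val + 1 = y.val ∨ (x.val = 0 ∧ y.val + 1 = n)

/-- the graph with all sides added -/
def withSides {n : ℕ} (G : SimpleGraph (Fin n)) : SimpleGraph (Fin n) :=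
  G ⊔ SimpleGraph.fromRel side

theorem side_of {n : ℕ} {x y : Fin n} (h : (SimpleGraph.fromRel (side (n := n))).Adj x y)
    (hxy : x < y) : side x y := by
  rw [SimpleGraph.fromRel_adj] at h
  have hxy' : x.val < y.val := hxy
  rcases h.2 with h | h
  · exact h
  · exfalso
    unfold side at h
    omega

theorem side_not_cross {n : ℕ} {a b c d : Fin n} (hcd : side c d) (h : Crosses a b c d) :
    False := by
  unfold side at hcd
  unfold Crosses at h
  simp only [Fin.lt_def] at h
  have := a.2
  have := b.2
  omega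

theorem side_not_cross' {n : ℕ} {a b c d : Fin n} (hab : side a b) (h : Crosses a b c d) :
    False := by
  unfold side at hab
  unfold Crosses at h
  simp only [Fin.lt_def] at h
  have := c.2
  have := d.2
  omega

theorem withSides_planar {n k : ℕ} {G : SimpleGraph (Fin n)} (hG : ConvexKPlanar k G) :
    ConvexKPlanar k (withSides G) := by
  intro a b hab hadj
  unfold crossings
  by_cases hs : side a b
  · have : {p : Fin n × Fin n | p.1 < p.2 ∧ (withSides G).Adj p.1 p.2 ∧
        Crosses a b p.1 p.2} = ∅ := by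
      rw [Set.eq_empty_iff_forall_notMem]
      rintro p ⟨-, -, h⟩
      exact side_not_cross' hs h
    rw [this, Set.ncard_empty]
    exact Nat.zero_le _
  · have hadj' : G.Adj a b := by
      rcases hadj with h | h
      · exact h
      · exact absurd (side_of h hab) hs
    have : {p : Fin n × Fin n | p.1 < p.2 ∧ (withSides G).Adj p.1 p.2 ∧
        Crosses a b p.1 p.2} = {p : Fin n × Fin n | p.1 < p.2 ∧ G.Adj p.1 p.2 ∧
        Crosses a b p.1 p.2} := by
      ext p
      constructor
      · rintro ⟨h1, h2, h3⟩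
        refine ⟨h1, ?_, h3⟩
        rcases h2 with h | h
        · exact h
        · exact (side_not_cross (side_of h h1) h3).elim
      · rintro ⟨h1, h2, h3⟩
        exact ⟨h1, Or.inl h2, h3⟩
    rw [this]
    exact hG a b hab hadj'

theorem add_sides {n k : ℕ} {c : ℝ} (h : ∃ G : SimpleGraph (Fin n), ConvexKPlanar k G ∧
    c ≤ (G.edgeSet.ncard : ℝ)) : ∃ G : SimpleGraph (Fin n), ConvexKPlanar k G ∧ HasSides G ∧
    c ≤ (G.edgeSet.ncard : ℝ) := by
  obtain ⟨G, h1, h2⟩ := h
  refine ⟨withSides G, withSides_planar h1, ?_, h2.trans ?_⟩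
  · intro a b hab hs
    right
    rw [SimpleGraph.fromRel_adj]
    exact ⟨ne_of_lt hab, Or.inl hs⟩
  · have hle : G ≤ withSides G := le_sup_left
    have := Set.ncard_le_ncard (SimpleGraph.edgeSet_mono hle) (Set.toFinite _)
    exact_mod_cast this

end Pool.Agent.H57.OC
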